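import Mathlib

/-!
In the space `C(ω*, ω*)` with the compact-open topology the finiteness of the range of a map is
preserved by all self-homeomorphisms. Hence no constant map is in the orbit of an
autohomeomorphism of `ω*`.
-/

namespace Pool.Agent.Results.MP_80df55_gt.FiniteRangeInvariant

open Set Filter Topology

/-- The remainder `βω \ ω`: the nonprincipal ultrafilters on `ℕ`, as a subspace of the space of
all ultrafilters on `ℕ`. -/
abbrev OmegaStar : Type := {u : Ultrafilter ℕ // ∀ n : ℕ, u ≠ pure n}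

theorem infinite_of_mem (u : OmegaStar) {s : Set ℕ} (hs : s ∈ u.1) : s.Infinite := by
  intro hfin
  obtain ⟨x, -, hx⟩ := Ultrafilter.eq_pure_of_finite_mem hfin hs
  exact u.2 x hx

theorem exists_mem {s : Set ℕ} (hs : s.Infinite) : ∃ u : OmegaStar, s ∈ u.1 := by
  have : NeBot (cofinite ⊓ 𝓟 s) := by
    rw [inf_principal_neBot_iff]
    intro t ht
    have h1 : (tᶜ).Finite := mem_cofinite.1 ht
    by_contra h2
    apply hs
    refine h1.subset ?_
    intro x hx hxt
    exact h2 ⟨x, hxt, hx⟩
  obtain ⟨u, hu⟩ := Ultrafilter.exists_le (cofinite ⊓ 𝓟 s)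
  refine ⟨⟨u, fun n hn => ?_⟩, ?_⟩
  · have h1 : ({n} : Set ℕ)ᶜ ∈ u := hu (mem_inf_of_left (by simp))
    rw [hn] at h1
    exact absurd (Ultrafilter.mem_pure.1 h1) (by simp)
  · exact hu (mem_inf_of_right (mem_principal_self s))

theorem isOpen_basic (s : Set ℕ) : IsOpen {v : OmegaStar | s ∈ v.1} :=
  (ultrafilter_isOpen_basic s).preimage continuous_subtype_val

theorem isClosed_basic (s : Set ℕ) : IsClosed {v : OmegaStar | s ∈ v.1} :=
  (ultrafilter_isClosed_basic s).preimage continuous_subtype_val

theorem exists_basic {O : Set OmegaStar} (hO : IsOpen O) {u : OmegaStar} (hu : u ∈ O) :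
    ∃ s : Set ℕ, s ∈ u.1 ∧ ∀ v : OmegaStar, s ∈ v.1 → v ∈ O := by
  obtain ⟨O', hO', rfl⟩ := isOpen_induced_iff.1 hO
  obtain ⟨W, ⟨s, rfl⟩, hs1, hs2⟩ := ultrafilterBasis_is_basis.exists_subset_of_mem_open hu hO'
  exact ⟨s, hs1, fun v hv => hs2 hv⟩

/-- Nonempty intersections of countably many open sets have nonempty interior. -/
theorem exists_open_subset {U : ℕ → Set OmegaStar} (hU : ∀ n, IsOpen (U n)) {x : OmegaStar}
    (hx : ∀ n, x ∈ U n) : ∃ V : Set OmegaStar, IsOpen V ∧ V.Nonempty ∧ ∀ n, V ⊆ U n := by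
  choose s hs hsU using fun n => exists_basic (hU n) (hx n)
  have hB : ∀ n, (⋂ k ∈ {k | k ≤ n}, s k) ∈ x.1 := by
    intro n
    exact (biInter_mem (Set.finite_le_nat n)).2 (fun k _ => hs k)
  have hpick : ∀ n, ∃ m, n ≤ m ∧ ∀ k ≤ n, m ∈ s k := by
    intro n
    obtain ⟨m, hm, hnm⟩ := (infinite_of_mem x (hB n)).exists_gt n
    exact ⟨m, hnm.le, fun k hk => Set.mem_iInter₂.1 hm k hk⟩
  choose b hb1 hb2 using hpick
  have hbinf : (Set.range b).Infinite := by
    intro hfin
    obtain ⟨M, hM⟩ := hfin.bddAbove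
    have := hM ⟨M + 1, rfl⟩
    have := hb1 (M + 1)
    omega
  obtain ⟨v, hv⟩ := exists_mem hbinf
  refine ⟨{v | Set.range b ∈ v.1}, isOpen_basic _, ⟨v, hv⟩, ?_⟩
  intro n w hw
  apply hsU n
  have hfin : (b '' {k | k < n}).Finite := (Set.finite_lt_nat n).image b
  have h1 : (b '' {k | k < n})ᶜ ∈ w.1 := by
    rw [Ultrafilter.compl_mem_iff_notMem]
    intro h
    exact infinite_of_mem w h hfin
  refine mem_of_superset (inter_mem hw h1) ?_
  rintro m ⟨⟨k, rfl⟩, hk⟩
  have : n ≤ k := by
    by_contra h
    exact hk ⟨k, not_le.1 h, rfl⟩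
  exact hb2 k n this

instance : Infinite OmegaStar := by
  have hinf : ∀ i : ℕ, {n : ℕ | (Nat.unpair n).1 = i}.Infinite := by
    intro i
    apply Set.infinite_of_injective_forall_mem (f := fun j => Nat.pair i j)
    · intro j k h
      have := congrArg (fun n => (Nat.unpair n).2) h
      simpa using this
    · intro j
      simp
  choose u hu using fun i => exists_mem (hinf i)
  refine Infinite.of_injective u (fun i j hij => ?_)
  have h1 := hu i
  have h2 := hu j
  rw [← hij] at h2
  obtain ⟨n, hn1, hn2⟩ := (u i).1.nonempty_of_mem (inter_mem h1 h2)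
  exact (show (Nat.unpair n).1 = i from hn1).symm.trans hn2

/-- Every `G_δ`-set around a map of finite range has nonempty interior. -/
theorem interior_of_finite {g : C(OmegaStar, OmegaStar)} (hg : (Set.range g).Finite)
    {O : ℕ → Set C(OmegaStar, OmegaStar)} (hO : ∀ n, IsOpen (O n)) (hgO : ∀ n, g ∈ O n) :
    (interior (⋂ n, O n)).Nonempty := by
  -- the filter of sets containing all maps close to `g` on the fibres of `g`
  let L : Filter C(OmegaStar, OmegaStar) :=
    { sets := {S | ∃ U : OmegaStar → Set OmegaStar, (∀ x, IsOpen (U x) ∧ x ∈ U x) ∧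
        ∀ h : C(OmegaStar, OmegaStar), (∀ y, h y ∈ U (g y)) → h ∈ S}
      univ_sets := ⟨fun _ => univ, fun x => ⟨isOpen_univ, trivial⟩, fun _ _ => trivial⟩
      sets_of_superset := by
        rintro S T ⟨U, hU, hS⟩ hST
        exact ⟨U, hU, fun h hh => hST (hS h hh)⟩
      inter_sets := by
        rintro S T ⟨U, hU, hS⟩ ⟨V, hV, hT⟩
        exact ⟨fun x => U x ∩ V x, fun x => ⟨(hU x).1.inter (hV x).1, (hU x).2, (hV x).2⟩,
          fun h hh => ⟨hS h (fun y => (hh y).1), hT h (fun y => (hh y).2)⟩⟩ }
  have hL : L ≤ 𝓝 g := by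
    have : Tendsto id L (𝓝 g) := by
      rw [ContinuousMap.tendsto_nhds_compactOpen]
      intro K _ W hW hgKW
      classical
      refine ⟨fun x => if x ∈ g '' K then W else univ, fun x => ?_, fun h hh y hy => ?_⟩
      · by_cases hx : x ∈ g '' K
        · beta_reduce
          rw [if_pos hx]
          obtain ⟨y, hy, rfl⟩ := hx
          exact ⟨hW, hgKW hy⟩
        · beta_reduce
          rw [if_neg hx]
          exact ⟨isOpen_univ, trivial⟩
      · have := hh y
        beta_reduce at this
        rw [if_pos (mem_image_of_mem g hy)] at this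
        exact this
    exact tendsto_id'.1 this
  have hmem : ∀ n, ∃ U : OmegaStar → Set OmegaStar, (∀ x, IsOpen (U x) ∧ x ∈ U x) ∧
      ∀ h : C(OmegaStar, OmegaStar), (∀ y, h y ∈ U (g y)) → h ∈ O n :=
    fun n => hL ((hO n).mem_nhds (hgO n))
  choose U hU hUO using hmem
  choose V hV using fun x => exists_open_subset (fun n => (hU n x).1) (fun n => (hU n x).2)
  choose v hv using fun x => (hV x).2.1
  -- the open set of maps sending each fibre of `g` to the corresponding set
  let Wset : Set C(OmegaStar, OmegaStar) := ⋂ x ∈ Set.range g, {h | MapsTo h (g ⁻¹' {x}) (V x)}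
  have hWopen : IsOpen Wset := by
    refine hg.isOpen_biInter (fun x _ => ?_)
    apply ContinuousMap.isOpen_setOfPred_mapsTo _ (hV x).1
    have hcl : IsClosed {w : Ultrafilter ℕ | ∀ n : ℕ, w ≠ pure n} := by
      have : {w : Ultrafilter ℕ | ∀ n : ℕ, w ≠ pure n} =
          ⋂ n : ℕ, {w : Ultrafilter ℕ | ({n} : Set ℕ)ᶜ ∈ w} := by
        ext w
        simp only [mem_ofPred_eq, mem_iInter]
        refine forall_congr' (fun n => ?_)
        constructor
        · intro h
          rw [Ultrafilter.compl_mem_iff_notMem]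
          intro h2
          obtain ⟨x, hx, hx2⟩ := Ultrafilter.eq_pure_of_finite_mem (Set.finite_singleton n) h2
          rw [mem_singleton_iff] at hx
          rw [hx] at hx2
          exact h hx2
        · rintro h rfl
          exact absurd (Ultrafilter.mem_pure.1 h) (by simp)
      rw [this]
      exact isClosed_iInter (fun n => ultrafilter_isClosed_basic _)
    have : CompactSpace OmegaStar := isCompact_iff_compactSpace.1 hcl.isCompact
    exact (isClosed_singleton.preimage g.continuous).isCompact
  have hWsub : Wset ⊆ ⋂ n, O n := by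
    intro h hh
    rw [mem_iInter]
    intro n
    apply hUO n
    intro y
    have h1 : h y ∈ V (g y) := by
      have := mem_iInter₂.1 hh (g y) ⟨y, rfl⟩
      exact this rfl
    exact (hV (g y)).2.2 n h1
  -- it contains a map
  have hne : Wset.Nonempty := by
    have hcont : Continuous (fun y => v (g y)) := by
      have hd : IsLocallyConstant (fun y => g y) := by
        rw [IsLocallyConstant.iff_isOpen_fiber]
        intro x
        by_cases hx : x ∈ Set.range g
        · have : (fun y => g y) ⁻¹' {x} = g ⁻¹' (Set.range g \ {x})ᶜ := by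
            ext y
            constructor
            · intro hy hy2
              exact hy2.2 hy
            · intro hy
              by_contra hy2
              exact hy ⟨⟨y, rfl⟩, hy2⟩
          rw [this]
          exact ((hg.subset sdiff_subset).isClosed.isOpen_compl).preimage g.continuous
        · have : (fun y => g y) ⁻¹' {x} = ∅ := by
            ext y
            constructor
            · intro hy
              exact absurd ⟨y, hy⟩ hx
            · intro hy
              exact absurd hy (notMem_empty y)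
          rw [this]
          exact isOpen_empty
      exact (hd.comp v).continuous
    refine ⟨⟨fun y => v (g y), hcont⟩, ?_⟩
    rw [mem_iInter₂]
    intro x _ y hy
    have : g y = x := hy
    change v (g y) ∈ V x
    rw [this]
    exact hv x
  exact hne.mono (interior_maximal hWsub hWopen)

/-- Around a map of infinite range there is a `G_δ`-set with empty interior. -/
theorem exists_of_infinite {g : C(OmegaStar, OmegaStar)} (hg : (Set.range g).Infinite) :
    ∃ O : ℕ → Set C(OmegaStar, OmegaStar), (∀ n, IsOpen (O n)) ∧ (∀ n, g ∈ O n) ∧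
      interior (⋂ n, O n) = ∅ := by
  have hg' : Infinite (Set.range g) := hg.to_subtype
  let e : ℕ ↪ Set.range g := Infinite.natEmbedding _
  choose x hx using fun n => (e n).2
  have hy : ∀ n m, n ≠ m → g (x n) ≠ g (x m) := by
    intro n m hnm h
    rw [hx n, hx m] at h
    exact hnm (e.injective (Subtype.ext h))
  have hsep : ∀ n m, n ≠ m → ∃ U V : Set OmegaStar, IsOpen U ∧ IsOpen V ∧ g (x n) ∈ U ∧
      g (x m) ∈ V ∧ Disjoint U V := fun n m hnm => t2_separation (hy n m hnm)
  choose! U V hU hV hxU hxV hd using hsep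
  -- the sets
  let S : ℕ → ℕ → Set C(OmegaStar, OmegaStar) := fun n m =>
    open Classical in if n ≠ m then {h | h (x n) ∈ U n m ∧ h (x m) ∈ V n m} else univ
  have hSopen : ∀ n m, IsOpen (S n m) := by
    intro n m
    by_cases hnm : n ≠ m
    · have : S n m = {h | h (x n) ∈ U n m ∧ h (x m) ∈ V n m} := if_pos hnm
      rw [this]
      exact ((hU n m hnm).preimage (continuous_eval_const (x n))).inter
        ((hV n m hnm).preimage (continuous_eval_const (x m)))
    · have : S n m = univ := if_neg hnm
      rw [this]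
      exact isOpen_univ
  have hSg : ∀ n m, g ∈ S n m := by
    intro n m
    by_cases hnm : n ≠ m
    · have : S n m = {h | h (x n) ∈ U n m ∧ h (x m) ∈ V n m} := if_pos hnm
      rw [this]
      exact ⟨hxU n m hnm, hxV n m hnm⟩
    · have : S n m = univ := if_neg hnm
      rw [this]
      trivial
  refine ⟨fun k => S (Nat.unpair k).1 (Nat.unpair k).2, fun k => hSopen _ _,
    fun k => hSg _ _, ?_⟩
  rw [Set.eq_empty_iff_forall_notMem]
  intro h0 hh0
  have hall : ∀ h ∈ (⋂ k, S (Nat.unpair k).1 (Nat.unpair k).2), ∀ n m, n ≠ m →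
      h (x n) ∈ U n m ∧ h (x m) ∈ V n m := by
    intro h hh n m hnm
    have h1 := mem_iInter.1 hh (Nat.pair n m)
    rw [Nat.unpair_pair] at h1
    have h2 : S n m = {h | h (x n) ∈ U n m ∧ h (x m) ∈ V n m} := if_pos hnm
    have h3 : h ∈ S n m := h1
    rw [h2] at h3
    exact h3
  -- a basic neighbourhood of `h0`
  let L : Filter C(OmegaStar, OmegaStar) :=
    { sets := {T | ∃ F : Finset (Set OmegaStar × Set OmegaStar),
        (∀ t ∈ F, IsClosed t.1 ∧ MapsTo h0 t.1 t.2) ∧
        ∀ h : C(OmegaStar, OmegaStar), (∀ t ∈ F, MapsTo h t.1 t.2) → h ∈ T}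
      univ_sets := ⟨∅, by simp, fun _ _ => trivial⟩
      sets_of_superset := by
        rintro S T ⟨F, hF, hS⟩ hST
        exact ⟨F, hF, fun h hh => hST (hS h hh)⟩
      inter_sets := by
        classical
        rintro S T ⟨F, hF, hS⟩ ⟨F', hF', hT⟩
        refine ⟨F ∪ F', fun t ht => ?_, fun h hh => ⟨hS h (fun t ht => hh t
          (Finset.mem_union_left _ ht)), hT h (fun t ht => hh t (Finset.mem_union_right _ ht))⟩⟩
        rcases Finset.mem_union.1 ht with h | h
        · exact hF t h
        · exact hF' t h }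
  have hL : L ≤ 𝓝 h0 := by
    have : Tendsto id L (𝓝 h0) := by
      rw [ContinuousMap.tendsto_nhds_compactOpen]
      intro K hK W _ hKW
      refine ⟨{(K, W)}, fun t ht => ?_, fun h hh => ?_⟩
      · rw [Finset.mem_singleton] at ht
        rw [ht]
        exact ⟨hK.isClosed, hKW⟩
      · exact hh (K, W) (Finset.mem_singleton_self _)
    exact tendsto_id'.1 this
  obtain ⟨F, hF, hFsub⟩ := hL (mem_interior_iff_mem_nhds.1 hh0)
  -- two points of the same kind
  classical
  obtain ⟨n, m, hnm, hJ⟩ := Finite.exists_ne_map_eq_of_infinite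
    (fun n : ℕ => (⟨F.filter (fun t => x n ∈ t.1), Finset.mem_powerset.2 (Finset.filter_subset _ _)⟩
      : {G // G ∈ F.powerset}))
  have hJ' : ∀ t ∈ F, x n ∈ t.1 ↔ x m ∈ t.1 := by
    intro t ht
    have h1 : F.filter (fun t => x n ∈ t.1) = F.filter (fun t => x m ∈ t.1) :=
      congrArg (fun G : {G // G ∈ F.powerset} => G.1) hJ
    constructor
    · intro h
      have : t ∈ F.filter (fun t => x n ∈ t.1) := Finset.mem_filter.2 ⟨ht, h⟩
      rw [h1] at this
      exact (Finset.mem_filter.1 this).2
    · intro h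
      have : t ∈ F.filter (fun t => x m ∈ t.1) := Finset.mem_filter.2 ⟨ht, h⟩
      rw [← h1] at this
      exact (Finset.mem_filter.1 this).2
  -- a small neighbourhood of `x n`
  have hopen : IsOpen (⋃ t ∈ (F.filter (fun t => x n ∉ t.1) : Set (Set OmegaStar × Set OmegaStar)),
      t.1)ᶜ := by
    rw [isOpen_compl_iff]
    refine (Finset.finite_toSet _).isClosed_biUnion (fun t ht => ?_)
    exact (hF t (Finset.mem_filter.1 ht).1).1
  have hxn : x n ∈ (⋃ t ∈ (F.filter (fun t => x n ∉ t.1) : Set (Set OmegaStar × Set OmegaStar)),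
      t.1)ᶜ := by
    intro h
    rw [mem_iUnion₂] at h
    obtain ⟨t, ht, ht2⟩ := h
    exact (Finset.mem_filter.1 ht).2 ht2
  obtain ⟨s, hs, hsO⟩ := exists_basic hopen hxn
  have hclopen : IsClopen {v : OmegaStar | s ∈ v.1} := ⟨isClosed_basic s, isOpen_basic s⟩
  have hcont : Continuous (fun v : OmegaStar => if s ∈ v.1 then h0 (x m) else h0 v) := by
    apply Continuous.if
    · intro a ha
      rw [hclopen.frontier_eq] at ha
      exact absurd ha (notMem_empty a)
    · exact continuous_const
    · exact h0.continuous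
  have hin : (⟨fun v : OmegaStar => if s ∈ v.1 then h0 (x m) else h0 v, hcont⟩ :
      C(OmegaStar, OmegaStar)) ∈ ⋂ k, S (Nat.unpair k).1 (Nat.unpair k).2 := by
    apply hFsub
    intro t ht v hv
    change (if s ∈ v.1 then h0 (x m) else h0 v) ∈ t.2
    by_cases hsv : s ∈ v.1
    · rw [if_pos hsv]
      have hxt : x n ∈ t.1 := by
        by_contra hxt
        apply hsO v hsv
        rw [mem_iUnion₂]
        exact ⟨t, Finset.mem_filter.2 ⟨ht, hxt⟩, hv⟩
      exact (hF t ht).2 ((hJ' t ht).1 hxt)
    · rw [if_neg hsv]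
      exact (hF t ht).2 hv
  have h1 := (hall _ hin n m hnm).1
  have h2 : (if s ∈ (x n).1 then h0 (x m) else h0 (x n)) ∈ U n m := h1
  rw [if_pos hs] at h2
  have h3 := (hall h0 (interior_subset hh0) n m hnm).2
  exact Set.disjoint_left.1 (hd n m hnm) h2 h3

/-- The finiteness of the range is preserved by self-homeomorphisms of `C(ω*, ω*)`. -/
theorem finite_range_of_homeomorph (Φ : C(OmegaStar, OmegaStar) ≃ₜ C(OmegaStar, OmegaStar))
    {g h : C(OmegaStar, OmegaStar)} (hgh : Φ g = h) (hg : (Set.range g).Finite) :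
    (Set.range h).Finite := by
  by_contra hh
  obtain ⟨O, hO, hgO, hint⟩ := exists_of_infinite (g := h) hh
  have h1 : (interior (⋂ n, Φ ⁻¹' (O n))).Nonempty := by
    apply interior_of_finite hg (fun n => (hO n).preimage Φ.continuous)
    intro n
    change Φ g ∈ O n
    rw [hgh]
    exact hgO n
  rw [← Set.preimage_iInter, ← Φ.preimage_interior, hint] at h1
  obtain ⟨z, hz⟩ := h1
  exact hz

/-- A point that is not in the closure of any countable set of other points. -/
def WeakPPoint (p : OmegaStar) : Prop :=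
  ∀ D : Set OmegaStar, D.Countable → p ∉ D → p ∉ closure D

/-- Finiteness of the range is an invariant of the orbits of `C(ω*, ω*)` with the compact-open
topology; in particular a constant map, at a weak P-point or not, is never in the orbit of an
autohomeomorphism of `ω*`. -/
theorem result :
    (¬ ∃ (p : OmegaStar) (f : OmegaStar ≃ₜ OmegaStar)
      (Φ : C(OmegaStar, OmegaStar) ≃ₜ C(OmegaStar, OmegaStar)),
      WeakPPoint p ∧ Φ (ContinuousMap.const OmegaStar p) = (f : C(OmegaStar, OmegaStar))) ∧
    (∀ (p : OmegaStar) (f : OmegaStar ≃ₜ OmegaStar)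
      (Φ : C(OmegaStar, OmegaStar) ≃ₜ C(OmegaStar, OmegaStar)),
      Φ (ContinuousMap.const OmegaStar p) ≠ (f : C(OmegaStar, OmegaStar))) ∧
    (∀ (g h : C(OmegaStar, OmegaStar)) (Φ : C(OmegaStar, OmegaStar) ≃ₜ C(OmegaStar, OmegaStar)),
      Φ g = h → ((Set.range g).Finite ↔ (Set.range h).Finite)) := by
  have h1 : ∀ (p : OmegaStar) (f : OmegaStar ≃ₜ OmegaStar)
      (Φ : C(OmegaStar, OmegaStar) ≃ₜ C(OmegaStar, OmegaStar)),
      Φ (ContinuousMap.const OmegaStar p) ≠ (f : C(OmegaStar, OmegaStar)) := by
    intro p f Φ h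
    have h2 : (Set.range (ContinuousMap.const OmegaStar p)).Finite := by
      refine (Set.finite_singleton p).subset ?_
      rintro _ ⟨y, rfl⟩
      rfl
    have h3 := finite_range_of_homeomorph Φ h h2
    have h4 : Set.range (f : C(OmegaStar, OmegaStar)) = univ := f.surjective.range_eq
    rw [h4] at h3
    exact Set.infinite_univ h3
  refine ⟨?_, h1, ?_⟩
  · rintro ⟨p, f, Φ, -, h⟩
    exact h1 p f Φ h
  · intro g h Φ hgh
    refine ⟨finite_range_of_homeomorph Φ hgh, finite_range_of_homeomorph Φ.symm ?_⟩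
    rw [← hgh]
    exact Φ.symm_apply_apply g

end Pool.Agent.Results.MP_80df55_gt.FiniteRangeInvariant
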